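import Mathlib

set_option autoImplicit false

/-! Root separation of `P_N(z;q) = ∑ binom(N,n) q^(n(n-1)/2) z^n` for real `q`, `0 < |q| < 1`. -/

namespace Pool.Agent.TH247.RQ

open Polynomial

/-- The real polynomial `P_N(.;q)`. -/
noncomputable def pn (q : ℝ) (N : ℕ) : Polynomial ℝ :=
  ∑ n ∈ Finset.range (N + 1),
    Polynomial.C ((N.choose n : ℝ) * q ^ (n * (n - 1) / 2)) * Polynomial.X ^ n

lemma coeff_pn (q : ℝ) (N n : ℕ) :
    (pn q N).coeff n = (N.choose n : ℝ) * q ^ (n * (n - 1) / 2) := by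
  unfold pn
  rw [Polynomial.finset_sum_coeff]
  simp only [Polynomial.coeff_C_mul, Polynomial.coeff_X_pow]
  by_cases h : n ≤ N
  · rw [Finset.sum_eq_single n]
    · simp
    · intro b _ hb
      rw [if_neg (Ne.symm hb)]; ring
    · intro hn
      exfalso; apply hn; simp; omega
  · rw [Finset.sum_eq_zero]
    · rw [Nat.choose_eq_zero_of_lt (by omega)]; simp
    · intro b hb
      rw [Finset.mem_range] at hb
      rw [if_neg (by omega)]; ring

lemma pn_succ (q : ℝ) (N : ℕ) :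
    pn q (N + 1) = pn q N + X * (pn q N).comp (C q * X) := by
  ext n
  rw [coeff_pn, coeff_add, coeff_pn]
  rcases n with _ | n
  · simp
  · rw [coeff_X_mul, comp_C_mul_X_coeff, coeff_pn, Nat.triangle_succ, Nat.choose_succ_succ]
    push_cast
    ring

lemma eval_succ (q x : ℝ) (N : ℕ) :
    (pn q (N + 1)).eval x = (pn q N).eval x + x * (pn q N).eval (q * x) := by
  rw [pn_succ]
  simp [eval_add, eval_mul, eval_comp]

lemma natDegree_pn_le (q : ℝ) (N : ℕ) : (pn q N).natDegree ≤ N := by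
  rw [natDegree_le_iff_coeff_eq_zero]
  intro n hn
  rw [coeff_pn, Nat.choose_eq_zero_of_lt hn]; simp

lemma eval_zero_pn (q : ℝ) (N : ℕ) : (pn q N).eval 0 = 1 := by
  rw [← coeff_zero_eq_eval_zero, coeff_pn]; simp

lemma tri_add (a b : ℕ) :
    (a + b) * (a + b - 1) / 2 = a * (a - 1) / 2 + b * (b - 1) / 2 + a * b := by
  induction b with
  | zero => simp
  | succ b ih =>
    rw [← add_assoc, Nat.triangle_succ, Nat.triangle_succ, ih]
    ring

lemma eval_pn (q x : ℝ) (N : ℕ) :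
    (pn q N).eval x
      = ∑ n ∈ Finset.range (N + 1), (N.choose n : ℝ) * q ^ (n * (n - 1) / 2) * x ^ n := by
  unfold pn
  rw [eval_finset_sum]
  simp

/-- Reciprocal symmetry. -/
lemma eval_symm (q x : ℝ) (hq : q ≠ 0) (hx : x ≠ 0) (M : ℕ) :
    (pn q (M + 1)).eval x
      = q ^ ((M + 1) * (M + 1 - 1) / 2) * x ^ (M + 1) * (pn q (M + 1)).eval (1 / (q ^ M * x)) := by
  rw [eval_pn, eval_pn, Finset.mul_sum]
  rw [← Finset.sum_flip (fun n => ((M + 1).choose n : ℝ) * q ^ (n * (n - 1) / 2) * x ^ n)]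
  apply Finset.sum_congr rfl
  intro m hm
  rw [Finset.mem_range] at hm
  obtain ⟨n, hn⟩ : ∃ n, M + 1 = n + m := ⟨M + 1 - m, by omega⟩
  have h1 : M + 1 - m = n := by omega
  have hc : (M + 1).choose m = (M + 1).choose n := by
    rw [hn]; exact (Nat.choose_symm_add).symm
  rw [h1, hc, hn, tri_add n m]
  -- exponent of q
  have h2 : n * (n - 1) / 2 + m * (m - 1) / 2 + n * m + m * (m - 1) / 2
      = n * (n - 1) / 2 + M * m := by
    have h3 : m * (m - 1) / 2 + m * (m - 1) / 2 = m * (m - 1) := by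
      have := Nat.even_mul_pred_self m
      have h4 := Nat.div_mul_cancel this.two_dvd
      omega
    rcases m with _ | m
    · simp
    · have h5 : M = n + m := by omega
      rw [h5]
      simp only [Nat.add_sub_cancel] at h3 ⊢
      have h6 : (n + m) * (m + 1) = n * (m + 1) + (m + 1) * m := by ring
      omega
  have h4 : (1 / (q ^ M * x)) ^ m = (q ^ (M * m))⁻¹ * (x ^ m)⁻¹ := by
    rw [one_div, inv_pow, mul_pow, ← pow_mul, mul_inv]
  rw [h4]
  have hqm : q ^ (M * m) ≠ 0 := pow_ne_zero _ hq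
  have hxm : x ^ m ≠ 0 := pow_ne_zero _ hx
  have h5 : q ^ (n * (n - 1) / 2 + m * (m - 1) / 2 + n * m) * q ^ (m * (m - 1) / 2)
      = q ^ (n * (n - 1) / 2) * q ^ (M * m) := by
    rw [← pow_add, h2, pow_add]
  have h6 : q ^ (n * (n - 1) / 2 + m * (m - 1) / 2 + n * m) * x ^ (n + m) *
        (((n + m).choose n : ℝ) * q ^ (m * (m - 1) / 2) * ((q ^ (M * m))⁻¹ * (x ^ m)⁻¹))
      = ((n + m).choose n : ℝ) * (q ^ (n * (n - 1) / 2 + m * (m - 1) / 2 + n * m) *
        q ^ (m * (m - 1) / 2)) * (q ^ (M * m))⁻¹ * x ^ n * (x ^ m * (x ^ m)⁻¹) := by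
    rw [pow_add x]; ring
  rw [h6, h5, mul_inv_cancel₀ hxm]
  field_simp

end Pool.Agent.TH247.RQ
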