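import Pool.Agent.TH247.RQ.Base

set_option autoImplicit false

namespace Pool.Agent.TH247.RQ

open Polynomial

/-- `P_{M+1}(.;q)` has the roots `-σ^i y_i`, `0 ≤ i ≤ M`, with `0 < y_i < |q| y_{i+1}`. -/
structure Good (q σ : ℝ) (M : ℕ) (y : ℕ → ℝ) : Prop where
  pos : ∀ i, i ≤ M → 0 < y i
  gap : ∀ i, i + 1 ≤ M → y i < |q| * y (i + 1)
  sym : y 0 * y M * |q| ^ M = 1
  fac : ∀ x : ℝ, (pn q (M + 1)).eval x = ∏ i ∈ Finset.range (M + 1), (1 + σ ^ i * x / y i)

lemma Good.chain {q σ : ℝ} {M : ℕ} {y : ℕ → ℝ} (h : Good q σ M y) (hq1 : |q| < 1)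
    {i j : ℕ} (hij : i < j) (hj : j ≤ M) : y i < |q| * y j := by
  induction j with
  | zero => omega
  | succ j ih =>
    rcases Nat.lt_or_ge i j with h1 | h1
    · have h2 := ih h1 (by omega)
      have h3 := h.gap j hj
      have h4 : 0 < y (j + 1) := h.pos _ hj
      have h5 : 0 < y j := h.pos _ (by omega)
      have h6 : |q| * y j ≤ y j := by
        have := mul_le_mul_of_nonneg_right hq1.le h5.le
        linarith
      linarith
    · have : i = j := by omega
      subst this
      exact h.gap i hj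

lemma Good.mono {q σ : ℝ} {M : ℕ} {y : ℕ → ℝ} (h : Good q σ M y) (hq1 : |q| < 1)
    {i j : ℕ} (hij : i < j) (hj : j ≤ M) : y i < y j := by
  have h1 := h.chain hq1 hij hj
  have h2 := h.pos j hj
  nlinarith [mul_lt_mul_of_pos_right hq1 h2]

/-- the left end of the interval for the `k`-th root -/
noncomputable def lo (q : ℝ) (y : ℕ → ℝ) (k : ℕ) : ℝ := if k = 0 then 0 else y (k - 1) / |q|

lemma sigma_cases {σ : ℝ} (hσ : σ = 1 ∨ σ = -1) (n : ℕ) : σ ^ n = 1 ∨ σ ^ n = -1 := by
  rcases hσ with h | h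
  · left; rw [h, one_pow]
  · rw [h]; exact neg_one_pow_eq_or ℝ n

lemma step_root {q σ : ℝ} {M : ℕ} {y : ℕ → ℝ} (h : Good q σ M y) (hq0 : q ≠ 0)
    (hq1 : |q| < 1) (hσ : σ = 1 ∨ σ = -1) (hqσ : q = σ * |q|) (k : ℕ) (hk : k ≤ M) :
    ∃ t, lo q y k < t ∧ t < y k ∧ (pn q (M + 2)).eval (-σ ^ k * t) = 0 := by
  have hqp : 0 < |q| := abs_pos.mpr hq0
  have hyk : 0 < y k := h.pos k hk
  have hσ2 : σ * σ = 1 := by rcases hσ with h | h <;> rw [h] <;> norm_num
  have hσn : ∀ n : ℕ, σ ^ n * σ ^ n = 1 := fun n => by rw [← mul_pow, hσ2, one_pow]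
  set a := lo q y k with ha
  have ha0 : 0 ≤ a := by
    rw [ha, lo]
    split_ifs with h0
    · exact le_refl _
    · exact div_nonneg (h.pos _ (by omega)).le hqp.le
  have hab : a < y k := by
    rw [ha, lo]
    split_ifs with h0
    · exact hyk
    · rw [div_lt_iff₀ hqp]
      have := h.gap (k - 1) (by omega)
      have h1 : k - 1 + 1 = k := by omega
      rw [h1] at this
      linarith [mul_comm (|q|) (y k)]
  set f : ℝ → ℝ := fun t => (pn q (M + 2)).eval (-σ ^ k * t) with hf
  have hfc : Continuous f := by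
    rw [hf]
    exact (pn q (M + 2)).continuous.comp (by fun_prop)
  have hrec : ∀ t, f t = (pn q (M + 1)).eval (-σ ^ k * t)
      + (-σ ^ k * t) * (pn q (M + 1)).eval (q * (-σ ^ k * t)) := fun t => eval_succ q _ (M + 1)
  -- value at `a`
  have hfa : f a = ∏ i ∈ Finset.range (M + 1), (1 + σ ^ i * (-σ ^ k * a) / y i) := by
    rw [hrec, h.fac (-σ ^ k * a)]
    have : (-σ ^ k * a) * (pn q (M + 1)).eval (q * (-σ ^ k * a)) = 0 := by
      by_cases h0 : k = 0
      · have : a = 0 := by rw [ha, lo, if_pos h0]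
        rw [this]; simp
      · rw [h.fac]
        apply mul_eq_zero_of_right
        apply Finset.prod_eq_zero (i := k - 1) (by simp; omega)
        have hak : a = y (k - 1) / |q| := by rw [ha, lo, if_neg h0]
        have hyk1 : 0 < y (k - 1) := h.pos _ (by omega)
        rw [hak]
        have h2 : σ ^ (k - 1) * (q * (-σ ^ k * (y (k - 1) / |q|))) / y (k - 1)
            = - (σ ^ (k - 1) * σ ^ k * (q / |q|)) := by
          field_simp
        have h3 : q / |q| = σ := by
          rw [div_eq_iff hqp.ne']; exact hqσ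
        have h4 : σ ^ k = σ ^ (k - 1) * σ := by
          rw [← pow_succ]; congr 1; omega
        rw [h2, h3, h4]
        have h5 : σ ^ (k - 1) * (σ ^ (k - 1) * σ) * σ
            = (σ ^ (k - 1) * σ ^ (k - 1)) * (σ * σ) := by ring
        rw [h5, hσn, hσ2]; ring
    rw [this, add_zero]
  -- value at `y k`
  have hfb : f (y k) = (-σ ^ k * y k) *
      ∏ i ∈ Finset.range (M + 1), (1 + σ ^ i * (q * (-σ ^ k * y k)) / y i) := by
    rw [hrec, h.fac (-σ ^ k * y k), h.fac]
    have : ∏ i ∈ Finset.range (M + 1), (1 + σ ^ i * (-σ ^ k * y k) / y i) = 0 := by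
      apply Finset.prod_eq_zero (i := k) (by simp; omega)
      have h2 : σ ^ k * (-σ ^ k * y k) / y k = -(σ ^ k * σ ^ k) := by
        field_simp
      rw [h2, hσn]; ring
    rw [this, zero_add]
  -- sign
  set g : ℕ → ℝ := fun i => (1 + σ ^ i * (-σ ^ k * a) / y i)
    * (1 + σ ^ i * (q * (-σ ^ k * y k)) / y i) with hg
  have hfab : f a * f (y k) = -y k * (σ ^ k * ∏ i ∈ Finset.range (M + 1), g i) := by
    rw [hfa, hfb, hg, Finset.prod_mul_distrib]; ring
  have hgi : ∀ i, i ≤ M → g i = (1 - (σ ^ i * σ ^ k) * (a / y i))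
      * (1 - (σ ^ i * σ ^ k) * σ * (|q| * y k / y i)) := by
    intro i hi
    have hyi := h.pos i hi
    have h1 : σ ^ i * (-σ ^ k * a) / y i = -((σ ^ i * σ ^ k) * (a / y i)) := by
      field_simp
    have h2 : σ ^ i * (q * (-σ ^ k * y k)) / y i
        = -((σ ^ i * σ ^ k) * σ * (|q| * y k / y i)) := by
      rw [show σ ^ i * (q * (-σ ^ k * y k)) = σ ^ i * ((σ * |q|) * (-σ ^ k * y k)) by rw [← hqσ]]
      field_simp
    rw [hg]
    simp only
    rw [h1, h2]; ring
  clear_value g
  have hlow : ∀ i, i < k → 0 < σ * g i := by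
    intro i hi
    rw [hgi i (by omega)]
    have hyi := h.pos i (by omega)
    have hA : 1 < a / y i := by
      rw [one_lt_div hyi, ha, lo, if_neg (by omega : k ≠ 0), lt_div_iff₀ hqp]
      have hle : y i ≤ y (k - 1) := by
        rcases Nat.lt_or_ge i (k - 1) with h1 | h1
        · exact (h.mono hq1 h1 (by omega)).le
        · have : i = k - 1 := by omega
          rw [this]
      have : y i * |q| < y i := by nlinarith
      linarith
    have hB : 1 < |q| * y k / y i := by
      rw [one_lt_div hyi]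
      exact h.chain hq1 hi hk
    have hτ : σ ^ i * σ ^ k = 1 ∨ σ ^ i * σ ^ k = -1 := by
      rw [← pow_add]; exact sigma_cases hσ _
    rcases hσ with h1 | h1
    · have : σ ^ i * σ ^ k = 1 := by rw [h1]; simp
      rw [this, h1]
      nlinarith
    · rcases hτ with h2 | h2
      · rw [h2, h1]; nlinarith
      · rw [h2, h1]; nlinarith
  have hhigh : ∀ i, k ≤ i → i ≤ M → 0 < g i := by
    intro i hi hiM
    rw [hgi i hiM]
    have hyi := h.pos i hiM
    have hle : y k ≤ y i := by
      rcases Nat.lt_or_ge k i with h1 | h1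
      · exact (h.mono hq1 h1 hiM).le
      · have : i = k := by omega
        rw [this]
    have hA : a / y i < 1 := by rw [div_lt_one hyi]; linarith
    have hA0 : 0 ≤ a / y i := div_nonneg ha0 hyi.le
    have hB : |q| * y k / y i < 1 := by
      rw [div_lt_one hyi]
      nlinarith
    have hB0 : 0 ≤ |q| * y k / y i := by positivity
    have hτ : σ ^ i * σ ^ k = 1 ∨ σ ^ i * σ ^ k = -1 := by
      rw [← pow_add]; exact sigma_cases hσ _
    apply mul_pos
    · rcases hτ with h2 | h2 <;> rw [h2] <;> linarith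
    · rcases hτ with h2 | h2 <;> rcases hσ with h1 | h1 <;> rw [h2, h1] <;> linarith
  have hprod : 0 < σ ^ k * ∏ i ∈ Finset.range (M + 1), g i := by
    rw [← Finset.prod_range_mul_prod_Ico g (by omega : k ≤ M + 1), ← mul_assoc]
    apply mul_pos
    · have : σ ^ k * ∏ i ∈ Finset.range k, g i = ∏ i ∈ Finset.range k, (σ * g i) := by
        rw [Finset.prod_mul_distrib, Finset.prod_const, Finset.card_range]
      rw [this]
      apply Finset.prod_pos
      intro i hi
      exact hlow i (by simpa using hi)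
    · apply Finset.prod_pos
      intro i hi
      rw [Finset.mem_Ico] at hi
      exact hhigh i hi.1 (by omega)
  have hneg : f a * f (y k) < 0 := by
    rw [hfab]; nlinarith
  have hfa0 : f a ≠ 0 := by
    intro h0; rw [h0, zero_mul] at hneg; exact lt_irrefl _ hneg
  have hfa2 : 0 < f a * f a := mul_self_pos.mpr hfa0
  obtain ⟨t, ht, ht0⟩ := intermediate_value_Ioo' hab.le
    ((continuous_const.mul hfc).continuousOn (s := Set.Icc a (y k)) : ContinuousOn (fun t => f a * f t) _)
    (⟨hneg, hfa2⟩ : (0:ℝ) ∈ Set.Ioo (f a * f (y k)) (f a * f a))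
  refine ⟨t, ht.1, ht.2, ?_⟩
  exact (mul_eq_zero.mp ht0).resolve_left hfa0

end Pool.Agent.TH247.RQ
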